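import Pool.Agent.Lib.MP_e70876_an.Main

/-!
Kernel estimates on a block, and the elimination inequality, for the failure of simultaneous
synthesis of two functions.
-/

namespace Pool.Agent.Lib.EX95

open Filter hiding ker
open Topology Pool.Agent.Lib.MP_e70876_an

/-- The size of the two main kernels on block `j`. -/
noncomputable def kap (j : ℕ) : ℝ := 1 / ((mm j : ℝ) * tt j ^ 2)

theorem kap_pos (j : ℕ) : 0 < kap j := by
  have := mm_pos j; have := tt_pos j; unfold kap; positivity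

theorem blk {j : ℕ} {n : ℤ} (hn : n ∈ block j) :
    0 < (n : ℝ) ∧ 2 * lam j ≤ |(n : ℝ)| ∧ 2 * |(n : ℝ)| ≤ lam (j + 1) := by
  have h := mem_block hn
  have hm := mm_pos j
  have ht := tt_pow_ge j 7
  have h2 : (0 : ℝ) < (mm j : ℝ) ^ 2 := by positivity
  have h3 := lam_upper j
  have h4 := lam_lower (j + 1)
  rw [sq_succ] at h4
  have h5 : (mm j : ℝ) ^ 2 * tt j ^ 14 = ((mm j : ℝ) ^ 2 * tt j ^ 7) * tt j ^ 7 := by ring
  have h6 : 4 * (mm j : ℝ) ^ 2 ≤ (mm j : ℝ) ^ 2 * tt j ^ 7 := by nlinarith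
  have hn0 : 0 < (n : ℝ) := by linarith [h.1]
  rw [abs_of_pos hn0]
  refine ⟨hn0, by linarith [h.1], ?_⟩
  rw [h5] at h4
  nlinarith [h.2]

theorem k1 {j : ℕ} {n : ℤ} (hn : n ∈ block j) :
    kap j / 2 ≤ |ker j n| ∧ |ker j n| ≤ 4 * kap j := by
  have h := mem_block hn
  obtain ⟨hn0, ha, -⟩ := blk hn
  have hm := mm_pos j
  have ht := tt_pos j
  have hl := lam_pos j
  have hL := LL_pos j
  constructor
  · have hd : |lam j - n| ≤ 2 * ((mm j : ℝ) ^ 2 * tt j ^ 7) := by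
      rw [abs_of_pos hn0] at ha
      rw [abs_le]; constructor <;> linarith [h.1, h.2]
    have hd0 := half_le_abs_lam_sub j n
    rw [abs_ker]
    calc kap j / 2 = (mm j : ℝ) * tt j ^ 5 / (2 * ((mm j : ℝ) ^ 2 * tt j ^ 7)) := by
          unfold kap; field_simp
      _ ≤ _ := by have := LL_lower j; gcongr
  · refine (ker_low le_rfl ha).1.trans ?_
    rw [abs_of_pos hn0]
    calc 2 * LL j / (n : ℝ) ≤ 2 * (2 * ((mm j : ℝ) * tt j ^ 5)) / ((mm j : ℝ) ^ 2 * tt j ^ 7) := by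
          have := LL_upper j; have := h.1.le; gcongr
      _ = _ := by unfold kap; field_simp; norm_num

theorem k2 {j : ℕ} {n : ℤ} (hn : n ∈ block j) :
    kap j / 2 ≤ |ker (j + 1) n| ∧ |ker (j + 1) n| ≤ 128 * kap j := by
  obtain ⟨hn0, -, hb⟩ := blk hn
  have hm := mm_pos j
  have ht := tt_pos j
  constructor
  · have hl := lam_pos (j + 1)
    have hd : |lam (j + 1) - n| ≤ lam (j + 1) := by
      rw [abs_of_pos hn0] at hb
      rw [abs_le]; constructor <;> linarith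
    have hd0 := half_le_abs_lam_sub (j + 1) n
    have hr := rr_lower (j + 1)
    rw [mm_succ] at hr
    have h5 : tt j ^ 5 ≤ tt (j + 1) ^ 5 := pow_le_pow_left₀ ht.le (tt_le_succ j) 5
    rw [abs_ker]
    calc kap j / 2 = tt j ^ 5 / (2 * ((mm j : ℝ) * tt j ^ 7)) := by unfold kap; field_simp
      _ ≤ tt (j + 1) ^ 5 / (2 * ((mm j : ℝ) * tt j ^ 7)) := by gcongr
      _ ≤ rr (j + 1) := hr
      _ ≤ _ := by
          unfold rr
          have := LL_pos (j + 1)
          gcongr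
  · refine (ker_high le_rfl hb).1.trans ?_
    have := rr_succ_le j
    calc 2 * rr (j + 1) ≤ 2 * (64 / ((mm j : ℝ) * tt j ^ 2)) := by gcongr
      _ = _ := by unfold kap; ring

theorem sum_LL (j : ℕ) : ∑ i ∈ Finset.range (j + 1), LL i ≤ 2 * LL j := by
  induction j with
  | zero => have := LL_pos 0; simp; linarith
  | succ j ih => rw [Finset.sum_range_succ]; have := LL_succ_ge j; linarith

theorem sum_LL' (j : ℕ) : ∑ i ∈ Finset.range j, LL i ≤ 16 * (mm j : ℝ) / tt j ^ 2 := by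
  rcases j with _ | j
  · have := mm_pos 0; have := tt_pos 0; simp; positivity
  · refine (sum_LL j).trans ?_
    have h1 := LL_upper j
    have hm := mm_pos j
    have ht := tt_pos j
    have ht' := tt_pos (j + 1)
    have h2 := tt_succ_pow_le j 2
    rw [mm_succ, le_div_iff₀ (by positivity)]
    calc 2 * LL j * tt (j + 1) ^ 2 ≤ 2 * (2 * ((mm j : ℝ) * tt j ^ 5)) * (2 ^ 2 * tt j ^ 2) := by
          gcongr
      _ = _ := by ring

/-- The error level on block `j`. -/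
noncomputable def er (j : ℕ) : ℝ := 288 * kap j / tt j ^ 7

theorem rest {j : ℕ} {n : ℤ} (hn : n ∈ block j) {c : ℕ → ℂ} {M : ℝ} (hc : ∀ i, ‖c i‖ ≤ M)
    {A : ℂ} (hA : HasSum (fun i => c i * (ker i n : ℝ)) A) :
    ‖A - (c j * (ker j n : ℝ) + c (j + 1) * (ker (j + 1) n : ℝ))‖ ≤ M * er j := by
  have h := mem_block hn
  obtain ⟨hn0, ha, hb⟩ := blk hn
  have hM : 0 ≤ M := (norm_nonneg _).trans (hc 0)
  have hm := mm_pos j
  have ht := tt_pos j
  have h1 := (hasSum_nat_add_iff' (j + 2)).2 hA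
  have h2 : ‖A - ∑ i ∈ Finset.range (j + 2), c i * (ker i n : ℝ)‖ ≤ M * (2 * rr (j + 2)) * 2 := by
    refine h1.norm_le_of_bounded (hasSum_geometric_two.mul_left _) fun i => ?_
    have a1 := (ker_high (i := i + (j + 2)) (j := j + 1) (by omega) hb).1
    have a2 := rr_add_le (j + 2) i
    rw [norm_mul, Complex.norm_real, Real.norm_eq_abs]
    calc _ ≤ M * (2 * (rr (j + 2) * (1 / 2) ^ i)) := by
          gcongr
          · exact hc _
          · linarith
      _ = _ := by ring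
  have h3 : ‖∑ i ∈ Finset.range j, c i * (ker i n : ℝ)‖ ≤
      M * (2 * (16 * (mm j : ℝ) / tt j ^ 2) / n) := by
    refine (norm_sum_le _ _).trans ?_
    calc _ ≤ ∑ i ∈ Finset.range j, M * (2 * LL i / n) := by
          refine Finset.sum_le_sum fun i hi => ?_
          have a1 := (ker_low (Finset.mem_range.1 hi).le ha).1
          rw [abs_of_pos hn0] at a1
          rw [norm_mul, Complex.norm_real, Real.norm_eq_abs]
          gcongr
          exact hc _
      _ = M * (2 * (∑ i ∈ Finset.range j, LL i) / n) := by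
          rw [← Finset.mul_sum, Finset.mul_sum _ _ 2, Finset.sum_div]
      _ ≤ _ := by have := sum_LL' j; gcongr
  have h4 : 2 * (16 * (mm j : ℝ) / tt j ^ 2) / n ≤ 32 * kap j / tt j ^ 7 := by
    calc _ ≤ 2 * (16 * (mm j : ℝ) / tt j ^ 2) / ((mm j : ℝ) ^ 2 * tt j ^ 7) := by
          have := h.1.le; gcongr
      _ = _ := by unfold kap; field_simp; norm_num
  have h5 : rr (j + 2) ≤ 64 * kap j / tt j ^ 7 := by
    refine (rr_succ_le (j + 1)).trans ?_
    rw [mm_succ]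
    have := tt_le_succ j
    calc 64 / ((mm j : ℝ) * tt j ^ 7 * tt (j + 1) ^ 2) ≤
          64 / ((mm j : ℝ) * tt j ^ 7 * tt j ^ 2) := by gcongr
      _ = _ := by unfold kap; field_simp
  have e : A - (c j * (ker j n : ℝ) + c (j + 1) * (ker (j + 1) n : ℝ)) =
      (A - ∑ i ∈ Finset.range (j + 2), c i * (ker i n : ℝ)) +
        ∑ i ∈ Finset.range j, c i * (ker i n : ℝ) := by
    rw [Finset.sum_range_succ, Finset.sum_range_succ]; ring
  rw [e]
  refine (norm_add_le _ _).trans ?_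
  have h6 : M * (2 * rr (j + 2)) * 2 ≤ M * (2 * (64 * kap j / tt j ^ 7)) * 2 := by gcongr
  have h7 : M * (2 * (16 * (mm j : ℝ) / tt j ^ 2) / n) ≤ M * (32 * kap j / tt j ^ 7) := by gcongr
  have e2 : M * er j = M * (2 * (64 * kap j / tt j ^ 7)) * 2 + M * (32 * kap j / tt j ^ 7) := by
    unfold er; ring
  linarith

/-- Elimination of the multiplier at an integer between the two functions. -/
theorem elim {β β' k k' κ E M : ℝ} {w w' ω A B A' B' : ℂ} (hβ : 0 < β) (hβ1 : β ≤ 1)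
    (hβ' : 0 < β') (hβ1' : β' ≤ 1) (hκ : 0 < κ) (hk : κ / 2 ≤ |k| ∧ |k| ≤ 4 * κ)
    (hk' : κ / 2 ≤ |k'| ∧ |k'| ≤ 128 * κ) (hE : E ≤ κ * β) (hE' : E ≤ κ * β')
    (hw : ‖w * β‖ ≤ M) (hw' : ‖w' * β'‖ ≤ M) (hA : ‖A - w * β * k‖ ≤ M * E)
    (hB : ‖B - β * k‖ ≤ E) (hA' : ‖A' - w' * β' * k'‖ ≤ M * E) (hB' : ‖B' - β' * k'‖ ≤ E) :
    β * β' * (κ ^ 2 / 4) * ‖w - w'‖ ≤
      129 * κ * β' * ‖A - ω * B‖ + 5 * κ * β * ‖A' - ω * B'‖ + 266 * κ * (M * E) := by
  have hM : 0 ≤ M := (norm_nonneg _).trans hw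
  have hE0 : 0 ≤ E := (norm_nonneg _).trans hB
  have nk : ‖(β : ℂ) * k‖ ≤ 4 * κ * β := by
    rw [norm_mul, Complex.norm_real, Complex.norm_real, Real.norm_of_nonneg hβ.le,
      Real.norm_eq_abs]
    nlinarith [hk.2]
  have nk' : ‖(β' : ℂ) * k'‖ ≤ 128 * κ * β' := by
    rw [norm_mul, Complex.norm_real, Complex.norm_real, Real.norm_of_nonneg hβ'.le,
      Real.norm_eq_abs]
    nlinarith [hk'.2]
  have nB : ‖B‖ ≤ 5 * κ * β := by
    have := norm_add_le (B - β * k) (β * k)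
    rw [sub_add_cancel] at this; linarith
  have nB' : ‖B'‖ ≤ 129 * κ * β' := by
    have := norm_add_le (B' - β' * k') (β' * k')
    rw [sub_add_cancel] at this; linarith
  have nw : ‖w * β * k‖ ≤ M * (4 * κ) := by
    rw [norm_mul, Complex.norm_real, Real.norm_eq_abs]; gcongr; exact hk.2
  have nw' : ‖w' * β' * k'‖ ≤ M * (128 * κ) := by
    rw [norm_mul, Complex.norm_real, Real.norm_eq_abs]; gcongr; exact hk'.2
  have e : (β : ℂ) * β' * (k * k') * (w - w') =
      B' * (A - ω * B) - B * (A' - ω * B') - B' * (A - w * β * k) + B * (A' - w' * β' * k')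
        - (B' - β' * k') * (w * β * k) + (B - β * k) * (w' * β' * k') := by ring
  have l : β * β' * (κ ^ 2 / 4) * ‖w - w'‖ ≤ ‖(β : ℂ) * β' * (k * k') * (w - w')‖ := by
    rw [norm_mul, norm_mul, norm_mul, norm_mul]
    simp only [Complex.norm_real, Real.norm_eq_abs, abs_of_pos hβ, abs_of_pos hβ']
    have : κ ^ 2 / 4 ≤ |k| * |k'| := by
      calc κ ^ 2 / 4 = κ / 2 * (κ / 2) := by ring
        _ ≤ _ := by gcongr; exacts [hk.1, hk'.1]
    gcongr
  refine l.trans ?_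
  rw [e]
  have t1 : ‖B' * (A - ω * B)‖ ≤ 129 * κ * β' * ‖A - ω * B‖ := by rw [norm_mul]; gcongr
  have t2 : ‖B * (A' - ω * B')‖ ≤ 5 * κ * β * ‖A' - ω * B'‖ := by rw [norm_mul]; gcongr
  have t3 : ‖B' * (A - w * β * k)‖ ≤ 129 * κ * 1 * (M * E) := by
    rw [norm_mul]; gcongr; exact nB'.trans (by gcongr)
  have t4 : ‖B * (A' - w' * β' * k')‖ ≤ 5 * κ * 1 * (M * E) := by
    rw [norm_mul]; gcongr; exact nB.trans (by gcongr)
  have t5 : ‖(B' - β' * k') * (w * β * k)‖ ≤ E * (M * (4 * κ)) := by rw [norm_mul]; gcongr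
  have t6 : ‖(B - β * k) * (w' * β' * k')‖ ≤ E * (M * (128 * κ)) := by rw [norm_mul]; gcongr
  have s1 := norm_sub_le (B' * (A - ω * B)) (B * (A' - ω * B'))
  have s2 := norm_sub_le (B' * (A - ω * B) - B * (A' - ω * B')) (B' * (A - w * β * k))
  have s3 := norm_add_le (B' * (A - ω * B) - B * (A' - ω * B') - B' * (A - w * β * k))
    (B * (A' - w' * β' * k'))
  have s4 := norm_sub_le (B' * (A - ω * B) - B * (A' - ω * B') - B' * (A - w * β * k) +
    B * (A' - w' * β' * k')) ((B' - β' * k') * (w * β * k))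
  have s5 := norm_add_le (B' * (A - ω * B) - B * (A' - ω * B') - B' * (A - w * β * k) +
    B * (A' - w' * β' * k') - (B' - β' * k') * (w * β * k)) ((B - β * k) * (w' * β' * k'))
  nlinarith

end Pool.Agent.Lib.EX95
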