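import Pool.Agent.Lib.EX95.Ker

/-!
Two functions whose expansions cannot be summed simultaneously by finitely supported multipliers.
-/

namespace Pool.Agent.Lib.EX95

open Filter hiding ker
open Topology Pool.Agent.Lib.MP_e70876_an
open scoped InnerProductSpace

/-- The weights `(j+3)^(-3/4)`. -/
noncomputable def be (j : ℕ) : ℝ := √(dd j)

theorem dd_pos (j : ℕ) : 0 < dd j := by
  have := tt_pos j; unfold dd; positivity

theorem dd_sq (j : ℕ) : dd j ^ 2 * tt j ^ 3 = 1 := by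
  have := tt_pos j
  unfold dd
  rw [div_pow, Real.sq_sqrt (by positivity)]
  field_simp

theorem be_pos (j : ℕ) : 0 < be j := Real.sqrt_pos.2 (dd_pos j)

theorem be_sq (j : ℕ) : be j ^ 2 = dd j := Real.sq_sqrt (dd_pos j).le

theorem be_bd (j : ℕ) : 1 ≤ be j * tt j ∧ be j ≤ 1 := by
  have h1 := dd_sq j
  have h2 := tt_ge j
  have h3 := be_pos j
  rw [← be_sq] at h1
  constructor
  · refine (one_le_pow_iff_of_nonneg (by positivity) (by norm_num : 4 ≠ 0)).1 ?_
    calc (1 : ℝ) ≤ ((be j ^ 2) ^ 2 * tt j ^ 3) * tt j := by rw [h1]; linarith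
      _ = _ := by ring
  · refine (pow_le_one_iff_of_nonneg h3.le (by norm_num : 4 ≠ 0)).1 ?_
    have h4 : (1 : ℝ) ≤ tt j ^ 3 := one_le_pow₀ (by linarith)
    calc be j ^ 4 ≤ be j ^ 4 * tt j ^ 3 := le_mul_of_one_le_right (by positivity) h4
      _ = 1 := by rw [← h1]; ring

theorem be_succ (j : ℕ) : 1 ≤ be (j + 1) * (2 * tt j) := by
  have h1 := (be_bd (j + 1)).1
  have h2 := tt_succ_le j
  have h3 := be_pos (j + 1)
  nlinarith

theorem er_le {j : ℕ} {β : ℝ} (h : 1 ≤ β * (2 * tt j)) : er j ≤ kap j * β := by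
  have ht := tt_pos j
  have hk := kap_pos j
  have h6 := tt_pow_ge j 6
  have hβ : 0 < β := by by_contra hc; nlinarith
  unfold er
  rw [div_le_iff₀ (by positivity)]
  have : 288 ≤ β * tt j ^ 7 := by
    have e : β * tt j ^ 7 = β * (2 * tt j) * (tt j ^ 6 / 2) := by ring
    rw [e]; nlinarith
  nlinarith

/-- The pointwise link inequality. -/
theorem point {j : ℕ} {D x y M : ℝ} (hM : 0 ≤ M)
    (h : be j * be (j + 1) * (kap j ^ 2 / 4) * D ≤
      129 * kap j * be (j + 1) * x + 5 * kap j * be j * y + 266 * kap j * (M * er j)) :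
    D ≤ (mm j : ℝ) ^ 2 * tt j ^ 7 * (258 * (x ^ 2 + y ^ 2)) +
      ((258 + 700000 * M) * dd j + 80 * dd (j + 1)) := by
  have ht := tt_pos j
  have hm := mm_pos j
  have hk := kap_pos j
  have hb := be_pos j
  have hb' := be_pos (j + 1)
  set Y := (mm j : ℝ) ^ 2 * tt j ^ 7 with hY
  have hY0 : 0 < Y := by positivity
  have hYk : Y * kap j ^ 2 = tt j ^ 3 := by rw [hY]; unfold kap; field_simp
  have am : ∀ {x β d : ℝ}, 0 < β → 1 ≤ d * (β ^ 2 * tt j ^ 3) →
      x / (β * kap j) ≤ (Y * x ^ 2 + d) / 2 := fun {x β d} hβ hd => by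
    have h1 : 1 / (β * kap j) ^ 2 ≤ Y * d := by
      rw [div_le_iff₀ (by positivity)]
      calc (1 : ℝ) ≤ d * (β ^ 2 * (Y * kap j ^ 2)) := by rw [hYk]; exact hd
        _ = _ := by ring
    have h2 : x / (β * kap j) = x * (1 / (β * kap j)) := by ring
    have h3 : 1 / (β * kap j) ^ 2 = (1 / (β * kap j)) ^ 2 := by rw [one_div_pow]
    rw [h2]
    rw [h3] at h1
    refine le_of_mul_le_mul_left ?_ hY0
    nlinarith [sq_nonneg (Y * x - 1 / (β * kap j))]
  have a1 := am (x := x) (d := dd j) hb (by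
    rw [be_sq]; have := dd_sq j; nlinarith)
  have a2 := am (x := y) (d := 8 * dd (j + 1)) hb' (by
    rw [be_sq]
    have h1 := dd_sq (j + 1)
    have h2 := tt_succ_pow_le j 3
    nlinarith [sq_nonneg (dd (j + 1))])
  have a3 : 1 / (be j * be (j + 1) * tt j ^ 7) ≤ 2 * dd j := by
    rw [div_le_iff₀ (by positivity), ← be_sq]
    have h1 := (be_bd j).1
    have h2 := be_succ j
    have h3 : (1 : ℝ) ≤ tt j ^ 3 := one_le_pow₀ (by have := tt_ge j; linarith)
    calc (1 : ℝ) ≤ (be j * tt j) ^ 3 * (be (j + 1) * (2 * tt j)) * tt j ^ 3 :=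
          one_le_mul_of_one_le_of_one_le
            (one_le_mul_of_one_le_of_one_le (one_le_pow₀ h1) h2) h3
      _ = _ := by ring
  have h4 : D ≤ 516 * (x / (be j * kap j)) + 20 * (y / (be (j + 1) * kap j)) +
      306432 * M * (1 / (be j * be (j + 1) * tt j ^ 7)) := by
    refine le_of_mul_le_mul_left (h.trans (le_of_eq ?_))
      (by positivity : 0 < be j * be (j + 1) * (kap j ^ 2 / 4))
    unfold er
    field_simp
    ring
  have a4 := mul_le_mul_of_nonneg_left a3 (by positivity : 0 ≤ 306432 * M)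
  have := dd_pos j
  have : 0 ≤ Y * y ^ 2 := by positivity
  have : 0 ≤ M * dd j := by positivity
  nlinarith

theorem block_disj {i j : ℕ} (h : i ≠ j) : Disjoint (block i) (block j) := by
  wlog hij : i < j generalizing i j
  · exact (this h.symm (by omega)).symm
  refine Finset.disjoint_left.2 fun n hi hj => ?_
  have h1 := (mem_block hi).2
  have h2 := (mem_block hj).1
  have h3 := (block_bounds i).2
  have h4 := (block_bounds j).1
  have h5 := sq_mono.monotone (Nat.succ_le_of_lt hij)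
  simp only [Nat.succ_eq_add_one] at h5
  have := mm_pos j
  nlinarith

variable {H : Type*} [NormedAddCommGroup H] [InnerProductSpace ℂ H] [CompleteSpace H]
  (b : HilbertBasis ℤ ℂ H)

/-- The coefficients of the two functions at the new frequencies. -/
noncomputable def cc (p i : ℕ) : ℂ := if i % 2 = p then (be i : ℝ) else 0

theorem norm_cc (p i : ℕ) : ‖cc p i‖ ≤ be i := by
  unfold cc
  split_ifs
  · rw [Complex.norm_real, Real.norm_of_nonneg (be_pos i).le]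
  · simpa using (be_pos i).le

theorem exists_vec (p : ℕ) : ∃ f : H, (∀ j, ⟪b (node j), Psi b f⟫_ℂ = cc p j) ∧
    ∀ n, n ∉ Set.range node → ⟪b n, f⟫_ℂ = 0 := by
  have hinj := node_strictMono.injective
  have hs : Memℓp (Function.extend node (cc p) 0) 2 := by
    refine memℓp_gen ?_
    refine (hinj.summable_iff fun n hn => ?_).1 ?_
    · rw [Function.extend_apply' _ _ _ hn]; simp
    · refine Summable.of_nonneg_of_le (fun i => Real.rpow_nonneg (norm_nonneg _) _)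
        (fun i => ?_) summable_dd
      simp only [Function.comp, hinj.extend_apply, ENNReal.toReal_ofNat, Real.rpow_ofNat]
      rw [← be_sq]
      exact pow_le_pow_left₀ (norm_nonneg _) (norm_cc p i) 2
  set g := b.repr.symm ⟨_, hs⟩ with hg
  have h1 : ∀ n, ⟪b n, g⟫_ℂ = Function.extend node (cc p) 0 n := fun n => by
    rw [← b.repr_apply_apply, hg, LinearIsometryEquiv.apply_symm_apply]
  refine ⟨g + Eop b g, fun j => by rw [Psi_left, h1, hinj.extend_apply], fun n hn => ?_⟩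
  have h2 := (innerSL ℂ (b n)).hasSum (hasSum_Eop_apply b g)
  simp only [innerSL_apply_apply, inner_smul_right, inner_nonnode_dvec b hn, mul_zero] at h2
  rw [inner_add_right, h1, Function.extend_apply' _ _ _ hn, h2.unique hasSum_zero]
  simp

theorem link2 (f S : ℕ → H) (W : Idx → ℂ) {M : ℝ}
    (hf1 : ∀ p j, ⟪b (node j), Psi b (f p)⟫_ℂ = cc p j)
    (hf2 : ∀ p n, n ∉ Set.range node → ⟪b n, f p⟫_ℂ = 0)
    (hS : ∀ p i, phi b i (S p) = W i * phi b i (f p))
    (hM : ∀ p < 2, ∀ i, ‖W (Sum.inr i) * cc p i‖ ≤ M) (j : ℕ) :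
    ‖W (Sum.inr j) - W (Sum.inr (j + 1))‖ ≤
      258 * (∑ n ∈ block j, (‖⟪b n, S 0 - f 0⟫_ℂ‖ ^ 2 + ‖⟪b n, S 1 - f 1⟫_ℂ‖ ^ 2)) +
        ((258 + 700000 * M) * dd j + 80 * dd (j + 1)) := by
  have hM0 : 0 ≤ M := (norm_nonneg _).trans (hM 0 two_pos 0)
  have hY : (0 : ℝ) < (mm j : ℝ) ^ 2 * tt j ^ 7 := by
    have := mm_pos j; have := tt_pos j; positivity
  have key : ∀ n ∈ block j, ‖W (Sum.inr j) - W (Sum.inr (j + 1))‖ ≤
      (mm j : ℝ) ^ 2 * tt j ^ 7 *
        (258 * (‖⟪b n, S 0 - f 0⟫_ℂ‖ ^ 2 + ‖⟪b n, S 1 - f 1⟫_ℂ‖ ^ 2)) +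
      ((258 + 700000 * M) * dd j + 80 * dd (j + 1)) := fun n hn => by
    have hn' := block_nonnode hn
    have hB : ∀ p, HasSum (fun i => cc p i * (ker i n : ℝ)) ⟪zvec b n, Psi b (f p)⟫_ℂ := fun p => by
      simpa only [hf1] using hasSum_inner_zvec b n (Psi b (f p))
    have hA : ∀ p, HasSum (fun i => W (Sum.inr i) * cc p i * (ker i n : ℝ))
        ⟪zvec b n, Psi b (S p)⟫_ℂ := fun p => by
      have h1 : ∀ i, ⟪b (node i), Psi b (S p)⟫_ℂ = W (Sum.inr i) * cc p i := fun i => by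
        rw [← hf1]; exact hS p (Sum.inr i)
      simpa only [h1] using hasSum_inner_zvec b n (Psi b (S p))
    have hu : ∀ p, ⟪b n, S p - f p⟫_ℂ =
        ⟪zvec b n, Psi b (S p)⟫_ℂ - W (Sum.inl ⟨n, hn'⟩) * ⟪zvec b n, Psi b (f p)⟫_ℂ := fun p => by
      have h1 : ⟪b n, S p⟫_ℂ - ⟪zvec b n, Psi b (S p)⟫_ℂ =
          W (Sum.inl ⟨n, hn'⟩) * (⟪b n, f p⟫_ℂ - ⟪zvec b n, Psi b (f p)⟫_ℂ) :=
        hS p (Sum.inl ⟨n, hn'⟩)
      rw [inner_sub_right, hf2 p n hn'] at *
      linear_combination h1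
    have c1 : cc (j % 2) j = (be j : ℝ) := if_pos rfl
    have c2 : cc (j % 2) (j + 1) = 0 := if_neg (by omega)
    have c3 : cc ((j + 1) % 2) j = 0 := if_neg (by omega)
    have c4 : cc ((j + 1) % 2) (j + 1) = (be (j + 1) : ℝ) := if_pos rfl
    have p1 : j % 2 < 2 := Nat.mod_lt _ two_pos
    have p2 : (j + 1) % 2 < 2 := Nat.mod_lt _ two_pos
    have r1 := rest hn (hM _ p1) (hA (j % 2))
    have r2 := rest hn (fun i => (norm_cc _ i).trans (be_bd i).2) (hB (j % 2))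
    have r3 := rest hn (hM _ p2) (hA ((j + 1) % 2))
    have r4 := rest hn (fun i => (norm_cc _ i).trans (be_bd i).2) (hB ((j + 1) % 2))
    have m1 := hM _ p1 j
    have m2 := hM _ p2 (j + 1)
    simp only [c1, c2, c3, c4, mul_zero, zero_mul, add_zero, zero_add, one_mul] at r1 r2 r3 r4 m1 m2
    have e := elim (ω := W (Sum.inl ⟨n, hn'⟩)) (be_pos j) (be_bd j).2 (be_pos (j + 1))
      (be_bd (j + 1)).2 (kap_pos j) (k1 hn) (k2 hn)
      (er_le (by have := (be_bd j).1; have := be_pos j; have := tt_pos j; nlinarith))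
      (er_le (be_succ j)) m1 m2 r1 r2 r3 r4
    rw [← hu, ← hu] at e
    have e2 := point hM0 e
    rcases Nat.mod_two_eq_zero_or_one j with h | h
    · rwa [h, show (j + 1) % 2 = 1 by omega] at e2
    · rwa [h, show (j + 1) % 2 = 0 by omega, add_comm (‖_‖ ^ 2)] at e2
  have h := Finset.sum_le_sum key
  rw [Finset.sum_const, nsmul_eq_mul, Finset.sum_add_distrib, Finset.sum_const, nsmul_eq_mul,
    card_block, ← Finset.mul_sum, ← Finset.mul_sum, ← mul_add] at h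
  exact le_of_mul_le_mul_left h hY

omit [CompleteSpace H] in
theorem sum_blocks (v : H) (s : Finset ℕ) :
    ∑ j ∈ s, ∑ n ∈ block j, ‖⟪b n, v⟫_ℂ‖ ^ 2 ≤ ‖v‖ ^ 2 := by
  rw [← Finset.sum_biUnion fun i _ j _ h => block_disj h]
  exact b.orthonormal.sum_inner_products_le v

theorem pair {k : ℕ → H} (hk : ∀ j n, ⟪b n, k j⟫_ℂ = (ker j n : ℝ)) :
    ∃ (f₁ f₂ : H) (δ : ℝ), 0 < δ ∧ ∀ (s : Finset Idx) (w : Idx → ℂ),
      δ ≤ ‖∑ i ∈ s, w i • phi b i f₁ • xv b k i - f₁‖ +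
        ‖∑ i ∈ s, w i • phi b i f₂ • xv b k i - f₂‖ := by
  classical
  choose f hf1 hf2 using exists_vec b
  set P := ‖Psi b‖ + 1 with hP
  have hP0 : 0 < P := by positivity
  have hphi : ∀ j (v : H), ‖phi b (Sum.inr j) v‖ ≤ P * ‖v‖ := fun j v => by
    refine (norm_inner_le_norm (𝕜 := ℂ) (b (node j)) (Psi b v)).trans ?_
    rw [b.orthonormal.1, one_mul]
    exact (Psi b).le_of_opNorm_le (by linarith) v
  set M := P * (‖f 0‖ + ‖f 1‖ + 1) with hM
  set ε : ℕ → ℝ := fun j => (258 + 700000 * M) * dd j + 80 * dd (j + 1) with hε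
  have hM0 : 0 ≤ M := by positivity
  have hεs : Summable ε :=
    (summable_dd.mul_left _).add (((summable_nat_add_iff 1).2 summable_dd).mul_left _)
  have hε0 : ∀ j, 0 ≤ ε j := fun j => by
    have := dd_pos j; have := dd_pos (j + 1); positivity
  obtain ⟨J, hJ⟩ := ((tendsto_sum_nat_add ε).eventually
    (gt_mem_nhds (by norm_num : (0 : ℝ) < 1 / 4))).exists
  have hbJ := be_pos J
  refine ⟨f 0, f 1, min (1 / 40) (be J / (4 * P)), by positivity, fun s w => ?_⟩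
  by_contra hcon
  rw [not_le, lt_min_iff] at hcon
  set S : ℕ → H := fun p => ∑ i ∈ s, w i • phi b i (f p) • xv b k i with hS
  set W : Idx → ℂ := fun i => if i ∈ s then w i else 0 with hW
  have hSW : ∀ p i, phi b i (S p) = W i * phi b i (f p) := fun p i => by
    simp only [hS, hW, map_sum, map_smul, phi_xv b hk, smul_eq_mul, mul_ite, mul_one, mul_zero,
      Finset.sum_ite_eq, ite_mul, zero_mul]
  change ‖S 0 - f 0‖ + ‖S 1 - f 1‖ < _ ∧ ‖S 0 - f 0‖ + ‖S 1 - f 1‖ < _ at hcon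
  have n0 := norm_nonneg (S 0 - f 0)
  have n1 := norm_nonneg (S 1 - f 1)
  have hle : ∀ p < 2, ‖S p - f p‖ ≤ ‖S 0 - f 0‖ + ‖S 1 - f 1‖ ∧ ‖f p‖ ≤ ‖f 0‖ + ‖f 1‖ := by
    intro p hp
    have := norm_nonneg (f 0); have := norm_nonneg (f 1)
    interval_cases p <;> constructor <;> linarith
  have hc : ∀ p i, phi b (Sum.inr i) (f p) = cc p i := hf1
  have hMb : ∀ p < 2, ∀ i, ‖W (Sum.inr i) * cc p i‖ ≤ M := fun p hp i => by
    rw [← hc, ← hSW]
    refine (hphi i _).trans (mul_le_mul_of_nonneg_left ?_ hP0.le)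
    have := norm_add_le (S p - f p) (f p)
    rw [sub_add_cancel] at this
    linarith [hle p hp, hcon.1]
  obtain ⟨N, hN⟩ : ∃ N, Sum.inr (N + J) ∉ s := by
    have hinj : Function.Injective fun N : ℕ => (Sum.inr (N + J) : Idx) :=
      Sum.inr_injective.comp (add_left_injective J)
    by_contra hcon'
    exact Set.infinite_range_of_injective hinj (s.finite_toSet.subset (by
      rintro _ ⟨N, rfl⟩
      by_contra h
      exact hcon' ⟨N, h⟩))
  have h1 := dist_le_range_sum_of_dist_le (f := fun i => W (Sum.inr (i + J))) N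
    (d := fun i => 258 * (∑ n ∈ block (i + J),
      (‖⟪b n, S 0 - f 0⟫_ℂ‖ ^ 2 + ‖⟪b n, S 1 - f 1⟫_ℂ‖ ^ 2)) + ε (i + J))
    (fun {i} _ => by
      rw [dist_eq_norm, show i + 1 + J = i + J + 1 by ring]
      exact link2 b f S W hf1 hf2 hSW hMb (i + J))
  have h2 : W (Sum.inr (N + J)) = 0 := if_neg hN
  simp only [zero_add, h2, dist_zero_right] at h1
  have h3 : ∀ v : H, ∑ i ∈ Finset.range N, ∑ n ∈ block (i + J), ‖⟪b n, v⟫_ℂ‖ ^ 2 ≤ ‖v‖ ^ 2 :=
    fun v => by
      have := sum_blocks b v ((Finset.range N).map ⟨_, add_left_injective J⟩)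
      rwa [Finset.sum_map] at this
  have h4 : ∑ i ∈ Finset.range N, ε (i + J) ≤ ∑' i, ε (i + J) :=
    ((summable_nat_add_iff J).2 hεs).sum_le_tsum _ fun i _ => hε0 _
  rw [Finset.sum_add_distrib, ← Finset.mul_sum] at h1
  simp only [Finset.sum_add_distrib (f := fun n => ‖⟪b n, S 0 - f 0⟫_ℂ‖ ^ 2),
    Finset.sum_add_distrib (f := fun i => ∑ n ∈ block (i + J), ‖⟪b n, S 0 - f 0⟫_ℂ‖ ^ 2)] at h1
  have h5 : ‖W (Sum.inr J)‖ ≤ 1 / 2 := by
    have a0 := h3 (S 0 - f 0)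
    have a1 := h3 (S 1 - f 1)
    have a2 : ‖S 0 - f 0‖ ^ 2 + ‖S 1 - f 1‖ ^ 2 ≤ 1 / 1600 := by nlinarith [hcon.1]
    linarith
  have p1 : J % 2 < 2 := Nat.mod_lt _ two_pos
  have h6 := hphi J (S (J % 2) - f (J % 2))
  rw [map_sub, hSW, hc, show cc (J % 2) J = (be J : ℝ) from if_pos rfl, ← sub_one_mul, norm_mul,
    Complex.norm_real, Real.norm_of_nonneg hbJ.le] at h6
  have h7 : P * ‖S (J % 2) - f (J % 2)‖ ≤ 1 / 4 * be J := by
    have := (lt_div_iff₀ (by positivity)).1 ((hle _ p1).1.trans_lt hcon.2)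
    linarith
  have h8 := le_of_mul_le_mul_right (h6.trans h7) hbJ
  have h9 := norm_sub_le (W (Sum.inr J)) (W (Sum.inr J) - 1)
  rw [sub_sub_cancel, norm_one] at h9
  linarith

theorem main : ∃ (Λ : Set ℂ) (g : ℂ → LTwo), (∀ z ∈ Λ, z.im = 0) ∧ Nonempty (ℕ ≃ Λ) ∧
    IsExact Λ ∧ IsBiorthogonal Λ g ∧ IsHereditarilyComplete Λ g ∧
    ¬ IsLinearSummationBasis Λ g ∧
    ∃ (f₁ f₂ : LTwo) (δ : ℝ), 0 < δ ∧ ∀ (s : Finset ℂ) (w : ℂ → ℂ), (s : Set ℂ) ⊆ Λ →
      δ ≤ ‖∑ z ∈ s, w z • ⟪g z, f₁⟫_ℂ • expo z - f₁‖ +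
        ‖∑ z ∈ s, w z • ⟪g z, f₂⟫_ℂ • expo z - f₂‖ := by
  refine ⟨Set.range freq, dual, ?_, ?_, exact_of biorthogonal hereditary, biorthogonal,
    hereditary, not_basis, ?_⟩
  · rintro _ ⟨i | j, rfl⟩ <;> exact Complex.ofReal_im _
  · obtain ⟨e⟩ : Nonempty (ℕ ≃ Idx) := nonempty_equiv_of_countable
    exact ⟨e.trans (Equiv.ofInjective freq freq_injective)⟩
  obtain ⟨f₁, f₂, δ, hδ, h⟩ := pair trigBasis inner_kv
  refine ⟨f₁, f₂, δ, hδ, fun s w hs => ?_⟩
  obtain ⟨t, rfl⟩ : ∃ t : Finset Idx, t.map ⟨freq, freq_injective⟩ = s := by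
    classical
    refine ⟨s.preimage freq freq_injective.injOn, Finset.coe_injective ?_⟩
    rw [Finset.coe_map, Finset.coe_preimage]
    exact Set.image_preimage_eq_of_subset hs
  simp only [Finset.sum_map, Function.Embedding.coeFn_mk, term_eq]
  exact h t fun i => w (freq i)

end Pool.Agent.Lib.EX95
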